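import Pool.Agent.PiTow.Rat
import Pool.Agent.PiTow.Spaces

/-!
# Algebraic numbers of the form `π ^ R(π)`

For a number `z` we consider the relations `P (x, z) = 0` with algebraic coefficients, of degree at
most `e` in `x` (and of any degree in `z`); for `z = R (x)`, `R` a rational function of degree at
most `e` with algebraic coefficients, there is one.

* Among the numbers `exp q * a₁ ^ m₁ ⋯ a_N ^ m_N` (`q` rational, `m_i` integers) those of the form
  `π ^ z` with such `z` have their `(q, m)` in finitely many spaces of dimension at most `e + 1`.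
* The same for the numbers `a₁ ^ β₁ ⋯ a_N ^ β_N`, `β_i` algebraic, and spaces over the algebraic
  numbers; on the curves `a₀ a₁ ^ β a₂ ^ (β ^ 2) ⋯` there are only finitely many.
* The algebraic numbers among the `exp (P (π) μ)`, `deg P ≤ e`, `μ` fixed, have rank at most `e + 1`.
-/

namespace Pool.Agent.Results.MP_7fde5c_nt.RationalTowers

open Module

/-- There is a nonzero polynomial `P` in two variables with algebraic coefficients, of degree at
most `e` in the first one (and of any degree in the second), with `P (x, z) = 0`. -/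
def Rel (e : ℕ) (x z : ℂ) : Prop :=
  ∃ P : MvPolynomial (Fin 2) ℂ, P ≠ 0 ∧ P.degreeOf 0 ≤ e ∧ (∀ m, IsAlgebraic ℚ (P.coeff m)) ∧
    MvPolynomial.eval ![x, z] P = 0

/-- `x = π` and `lam = log π`; or `x` is any transcendental number and `lam ≠ 0` any number. -/
def Base (x lam : ℂ) : Prop :=
  (x = Real.pi ∧ lam = Real.log Real.pi) ∨ (Transcendental ℚ x ∧ lam ≠ 0)

private theorem pi_transcendental : ¬ IsAlgebraic ℚ (Real.pi : ℂ) := fun h => by
  have h1 := Pool.Agent.BKR.baker (fun _ : Fin 1 => (2 * Real.pi * Complex.I : ℂ))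
    (by
      rw [linearIndependent_unique_iff]
      exact Complex.two_pi_I_ne_zero)
    (fun _ => by rw [Complex.exp_two_pi_mul_I]; exact isAlgebraic_one)
    (fun _ => 1) (-(2 * Real.pi * Complex.I)) (fun _ => isAlgebraic_one)
    (by
      have h2 : IsAlgebraic ℚ Complex.I := by
        refine ⟨Polynomial.X ^ 2 + 1, ?_, by simp⟩
        exact (Polynomial.monic_X_pow_add_C (1 : ℚ) two_ne_zero).ne_zero
      exact (((isAlgebraic_ratCast ℚ (2 : ℚ)).mul h).mul h2).neg)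
    (by simp)
  exact one_ne_zero (h1.2 0)

private theorem base {x lam : ℂ} (h : Base x lam) : ¬ IsAlgebraic ℚ x ∧ lam ≠ 0 := by
  rcases h with ⟨rfl, rfl⟩ | h
  · refine ⟨pi_transcendental, ?_⟩
    have h1 : Real.log Real.pi ≠ 0 :=
      (Real.log_pos (by linarith [Real.pi_gt_three])).ne'
    exact_mod_cast h1
  · exact h

theorem result (x lam : ℂ) (h : Base x lam) (e : ℕ) :
    -- rational functions of degree at most `e`
    (∀ P Q : Polynomial ℂ, (∀ n, IsAlgebraic ℚ (P.coeff n)) → (∀ n, IsAlgebraic ℚ (Q.coeff n)) →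
      P.natDegree ≤ e → Q.natDegree ≤ e → Q.eval x ≠ 0 → Rel e x (P.eval x / Q.eval x)) ∧
    -- finitely generated groups
    (∀ (N : ℕ) (a : Fin N → ℂ), (∀ i, IsAlgebraic ℚ (a i)) → (∀ i, a i ≠ 0) →
      (∀ m : Fin N → ℤ, ∏ i, a i ^ m i = 1 → m = 0) →
      ∃ (n : ℕ) (U : Fin n → Submodule ℚ (Fin (N + 1) → ℚ)), (∀ j, finrank ℚ (U j) ≤ e + 1) ∧
        ∀ (q : ℚ) (m : Fin N → ℤ), (∃ z, Rel e x z ∧
          Complex.exp (z * lam) = Complex.exp q * ∏ i, a i ^ m i) →
          ∃ j, (Fin.cons q fun i => (m i : ℚ) : Fin (N + 1) → ℚ) ∈ U j) ∧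
    -- algebraic exponents
    (∀ K : Subfield ℂ, (∀ c, c ∈ K ↔ IsAlgebraic ℚ c) → ∀ (N : ℕ) (t : Fin N → ℂ),
      (∀ i, IsAlgebraic ℚ (Complex.exp (t i))) →
      (∀ m : Fin N → ℤ, ∏ i, Complex.exp (t i) ^ m i = 1 → m = 0) →
      ∃ (n : ℕ) (U : Fin n → Submodule K (Fin N → K)), (∀ j, finrank K (U j) ≤ e + 1) ∧
        ∀ β : Fin N → K, (∃ z, Rel e x z ∧
          Complex.exp (z * lam) = Complex.exp (∑ i, (β i : ℂ) * t i)) → ∃ j, β ∈ U j) ∧
    -- curves
    (∀ t : Fin (e + 2) → ℂ, (∀ i, IsAlgebraic ℚ (Complex.exp (t i))) →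
      (∀ m : Fin (e + 2) → ℤ, ∏ i, Complex.exp (t i) ^ m i = 1 → m = 0) →
      {β : ℂ | IsAlgebraic ℚ β ∧ ∃ z, Rel e x z ∧
        Complex.exp (z * lam) = Complex.exp (∑ i : Fin (e + 2), β ^ (i : ℕ) * t i)}.Finite) ∧
    -- polynomials
    (∀ (μ : ℂ) (P : Fin (e + 2) → Polynomial ℂ), μ ≠ 0 →
      (∀ j n, IsAlgebraic ℚ ((P j).coeff n)) → (∀ j, (P j).natDegree ≤ e) →
      LinearIndependent ℚ P → ∃ j, ¬ IsAlgebraic ℚ (Complex.exp ((P j).eval x * μ))) := by
  obtain ⟨hx, hlam⟩ := base h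
  refine ⟨fun P Q hP hQ hPd hQd hQ0 => Pool.Agent.PiTow.rel_rat e x P Q hP hQ hPd hQd hQ0,
    fun N a ha ha0 hi => Pool.Agent.PiTow.part1 e N x hx lam hlam a ha ha0 hi,
    fun K hK N t ht hi => Pool.Agent.PiTow.part_spaces K hK e N x hx lam hlam t ht hi,
    fun t ht hi => Pool.Agent.PiTow.part2 e x hx lam hlam t ht hi, fun μ P hμ hP hd hi => ?_⟩
  obtain ⟨j, hj⟩ := Pool.Agent.PiTow.part3 e x hx μ hμ 1 one_ne_zero P hP hd hi
  exact ⟨j, by rwa [div_one] at hj⟩

end Pool.Agent.Results.MP_7fde5c_nt.RationalTowers
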